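import Pool.Agent.H205R3.GroupInc

/-!
# The class `𝒢(K_{2,4})` is universal (MP_f0827e_co, Q1: disproof)

For the fixed graph `Y = K_{2,4}` (two vertices joined by four paths of length two) every finite
group is isomorphic to the full automorphism group of the intersection graph of a finite family of
connected subgraphs of a subdivision of `Y`.

Proof. Two families of subgraphs: the first contain the hub `0` and initial segments of the four
paths between the hubs, the second contain the hub `1` and final segments. A subgraph of the first
and one of the second family are disjoint iff four inequalities hold, so every point-rectangle
incidence graph can be realised as the complement of the graph between the two families. For a group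
`G` of order at least two take the points `(g, h, c)`, `g, h ∈ G`, `c = 0, 1, 2`, and the blocks
`L (g, h) = {(g, h, c) : c}`, `R g = {(g, h, 0) : h}`, `C h = {(g, h, 1) : g}` and a chain of blocks
`N t` recording the third index and the quotient `g⁻¹ h` of the points with `c = 2`. These are
rectangles for suitable coordinates, and the automorphism group of the incidence structure is `G`.
-/

set_option autoImplicit false

namespace Pool.Agent.Results.MP_f0827e_co.UniversalK24

open Pool.Agent.H205R3

/-- For `Y = K_{2,4}` the class `𝒢(Y)` is universal. -/
theorem result : Universal (completeBipartiteGraph (Fin 2) (Fin 4)) :=
  universal_K24

end Pool.Agent.Results.MP_f0827e_co.UniversalK24
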